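import Pool.Agent.Y213.BD.Tr

/-! Transfer of configurations of points. -/

set_option autoImplicit false

namespace Pool.Agent.Y213.BD

open WeierstrassCurve Pool.Agent.H901R3.MS MvPolynomial NumberField Pool.Agent.Y213.EC

open scoped WeierstrassCurve.Projective

theorem ps_congr {R : Type} [CommRing R] (W : Projective R) (τ τ' : ℕ → Bool)
    (V : ℕ → Fin 3 → R) (j : ℕ) (h : ∀ i < j, τ i = τ' i) : ps W τ V j = ps W τ' V j := by
  induction j with
  | zero => rfl
  | succ j ih =>
    simp only [ps]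
    rw [ih (fun i hi => h i (by omega)), h j (by omega)]

section field

variable {F : Type} [Field F] {a b : F}

/-- the partial sums are the sums of the points if the types are right, weak form -/
theorem ps_spec' [DecidableEq F] (τ : ℕ → Bool) (V : ℕ → Fin 3 → F) (m : ℕ)
    (hV : ∀ j ≤ m, Projective.Nonsingular (CR a b) (V j))
    (hτ : ∀ j < m, (τ j = true → ∃ u : F, ps (CR a b) τ V j = u • V (j + 1)) ∧
      (¬ τ j = true → ¬ ∃ u : F, ps (CR a b) τ V j = u • V (j + 1))) :
    ∀ j ≤ m, Projective.Nonsingular (CR a b) (ps (CR a b) τ V j) ∧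
      pt a b (ps (CR a b) τ V j) = ∑ i ∈ Finset.range (j + 1), pt a b (V i) := by
  intro j hj
  induction j with
  | zero =>
    refine ⟨hV 0 hj, ?_⟩
    rw [Finset.sum_range_one]
    rfl
  | succ j ih =>
    obtain ⟨h1, h2⟩ := ih (by omega)
    have h3 := hV (j + 1) hj
    have h4 : ps (CR a b) τ V (j + 1) =
        Projective.add (CR a b) (ps (CR a b) τ V j) (V (j + 1)) := by
      simp only [ps]
      by_cases h : τ j = true
      · obtain ⟨u, hu⟩ := (hτ j (by omega)).1 h
        have hu0 : u ≠ 0 := by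
          rintro rfl
          rw [zero_smul] at hu
          exact ns_ne h1 hu
        have h5 : ps (CR a b) τ V j ≈ V (j + 1) := ⟨Units.mk0 u hu0, hu.symm⟩
        rw [if_pos h, Projective.add_of_equiv h5]
      · rw [if_neg h, Projective.add_of_not_equiv]
        rintro ⟨u, hu⟩
        exact (hτ j (by omega)).2 h ⟨u, hu.symm⟩
    rw [h4]
    refine ⟨Projective.nonsingular_add h1 h3, ?_⟩
    rw [pt_add h1 h3, h2, Finset.sum_range_succ _ (j + 1)]

theorem exists_z {P Q : Fin 3 → F} (hP : P ≠ 0) (hQ : Q ≠ 0) (h : ¬ P ≈ Q) :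
    ∃ z : Fin 3 → Fin 3 → F, ∑ c, ∑ c', z c c' * (P c * Q c' - P c' * Q c) = 1 := by
  classical
  obtain ⟨c, c', hc⟩ : ∃ c c', P c * Q c' - P c' * Q c ≠ 0 := by
    by_contra hcon
    push Not at hcon
    obtain ⟨j, hj⟩ := Function.ne_iff.1 hQ
    have hj' : Q j ≠ 0 := hj
    have h1 : P = (P j / Q j) • Q := by
      funext i
      have := hcon i j
      rw [Pi.smul_apply, smul_eq_mul]
      field_simp
      linear_combination this
    have h2 : P j / Q j ≠ 0 := by
      intro h0
      rw [h0, zero_smul] at h1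
      exact hP h1
    exact h ⟨Units.mk0 _ h2, h1.symm⟩
  refine ⟨fun i i' => if i = c ∧ i' = c' then (P c * Q c' - P c' * Q c)⁻¹ else 0, ?_⟩
  beta_reduce
  rw [Finset.sum_eq_single c, Finset.sum_eq_single c']
  · rw [if_pos ⟨rfl, rfl⟩, inv_mul_cancel₀ hc]
  · intro i _ hi
    rw [if_neg (fun h => hi h.2), zero_mul]
  · intro h
    exact absurd (Finset.mem_univ _) h
  · intro i _ hi
    refine Finset.sum_eq_zero fun i' _ => ?_
    rw [if_neg (fun h => hi h.1), zero_mul]
  · intro h
    exact absurd (Finset.mem_univ _) h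

end field

section

variable {ι : Type} {r n m q : ℕ}

open scoped Classical in
/-- a configuration: points `y l` of the parameter space, and `m + 1` points of each member `y l`
with the same sum for all `l`, such that `D(y) ≠ 0` -/
def Cfg {O : Type} [CommRing O] (a b : O) (G : Fin q → Pol O r n)
    (D : MvPolynomial (ι × Fin n) O) (m : ℕ) {k : Type} [Field k] (φ : O →+* k) : Prop :=
  ∃ (S : Fin r → Pt (φ a) (φ b)) (y : ι → Fin n → k)
    (P : ι → Fin (m + 1) → Fin r → Pt (φ a) (φ b)),
    (∀ l j e, vl φ (G e) (fun i => rep (P l j i)) (y l) = 0) ∧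
    (∀ l i, ∑ j, P l j i = S i) ∧ eval₂ φ (fun lt => y lt.1 lt.2) D ≠ 0

theorem rep_ne0 {F : Type} [Field F] {a b : F} (P : Pt a b) : rep P ≠ 0 := ns_ne (ns_rep P)

theorem ex_of_cfg {O : Type} [CommRing O] (a b : O) (G : Fin q → Pol O r n)
    (D : MvPolynomial (ι × Fin n) O) {k : Type} [Field k] (φ : O →+* k)
    (h : Cfg a b G D m φ) : ∃ (τ : ι → Fin r → Fin m → Bool) (v : Vr ι r n m → k),
      ∀ x, ex a b G D τ k φ v x = 0 := by
  classical
  obtain ⟨S, y, P, hG, hS, hD⟩ := h
  let Vs : ι → Fin r → ℕ → Fin 3 → k := fun l i j => rep (P l (Fin.ofNat (m + 1) j) i)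
  have hty : ∀ l i, ∃ τ : ℕ → Bool, ∀ j, (τ j = true ↔
      ps (CR (φ a) (φ b)) τ (Vs l i) j ≈ Vs l i (j + 1)) := fun l i => exists_types _
  choose τ' hτ' using hty
  let τ : ι → Fin r → Fin m → Bool := fun l i j => τ' l i j.1
  have hps : ∀ l i, ∀ j ≤ m, ps (CR (φ a) (φ b)) (ext τ l i) (Vs l i) j =
      ps (CR (φ a) (φ b)) (τ' l i) (Vs l i) j := by
    intro l i j hj
    refine ps_congr _ _ _ _ _ fun k hk => ?_
    unfold ext
    rw [dif_pos (by omega : k < m)]
  have hspec := fun l i => ps_spec (a := φ a) (b := φ b) (τ' l i) (Vs l i) m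
    (fun j _ => ns_rep _) (fun j _ => hτ' l i j)
  have hW : ∀ l j i, ∃ W : Fin 3 → k, ∑ c, rep (P l j i) c * W c = 1 := fun l j i =>
    exists_dual _ (rep_ne0 _)
  choose W hW using hW
  have hT : ∀ i, ∃ T : Fin 3 → k, ∑ c, rep (S i) c * T c = 1 := fun i => exists_dual _ (rep_ne0 _)
  choose T hT using hT
  have hU : ∀ l i (j : Fin m), ∃ u : k, τ l i j = true →
      ∀ c, ps (CR (φ a) (φ b)) (ext τ l i) (Vs l i) j c = u * Vs l i (j + 1) c := by
    intro l i j
    by_cases h : τ l i j = true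
    · obtain ⟨u, hu⟩ := (hτ' l i j).1 h
      refine ⟨u, fun _ c => ?_⟩
      rw [hps l i j (by omega)]
      exact (congrFun hu c).symm
    · exact ⟨0, fun h' => absurd h' h⟩
  choose U hU using hU
  have hZ : ∀ l i (j : Fin m), ∃ z : Fin 3 → Fin 3 → k, ¬ τ l i j = true →
      ∑ c, ∑ c', z c c' * (ps (CR (φ a) (φ b)) (ext τ l i) (Vs l i) j c * Vs l i (j + 1) c' -
        ps (CR (φ a) (φ b)) (ext τ l i) (Vs l i) j c' * Vs l i (j + 1) c) = 1 := by
    intro l i j
    by_cases h : τ l i j = true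
    · exact ⟨0, fun h' => absurd h h'⟩
    · have h1 : ¬ ps (CR (φ a) (φ b)) (ext τ l i) (Vs l i) j ≈ Vs l i (j + 1) := by
        rw [hps l i j (by omega)]
        exact fun h' => h ((hτ' l i j).2 h')
      obtain ⟨z, hz⟩ := exists_z (by
        rw [hps l i j (by omega)]
        exact ns_ne (hspec l i j (by omega)).1) (rep_ne0 _) h1
      exact ⟨z, fun _ => hz⟩
  choose Z hZ using hZ
  have hQ : ∀ l i, ∃ u : k, ∀ c, ps (CR (φ a) (φ b)) (ext τ l i) (Vs l i) m c =
      u * rep (S i) c := by
    intro l i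
    obtain ⟨h1, h2⟩ := hspec l i m le_rfl
    have h3 : pt (φ a) (φ b) (ps (CR (φ a) (φ b)) (τ' l i) (Vs l i) m) = S i := by
      rw [h2, ← hS l i, Finset.sum_range]
      refine Finset.sum_congr rfl fun j _ => ?_
      have h4 : Fin.ofNat (m + 1) j.1 = j := by
        ext
        simp
      simp only [Vs]
      rw [h4]
      exact pt_rep _
    have h4 := rep_pt _ h1
    rw [h3] at h4
    obtain ⟨u, hu⟩ := Setoid.symm h4
    refine ⟨u, fun c => ?_⟩
    rw [hps l i m le_rfl]
    exact (congrFun hu c).symm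
  choose Q hQ using hQ
  let v : Vr ι r n m → k := fun x => match x with
    | .V l j i c => rep (P l j i) c
    | .W l j i c => W l j i c
    | .S i c => rep (S i) c
    | .T i c => T i c
    | .Y l t => y l t
    | .D => (eval₂ φ (fun lt => y lt.1 lt.2) D)⁻¹
    | .U l i j => U l i j
    | .Z l i j c c' => Z l i j c c'
    | .Q l i => Q l i
  have hvec : ∀ l i, vec v l i = Vs l i := fun l i => rfl
  refine ⟨τ, v, fun x => ?_⟩
  cases x with
  | onV l j i =>
    simp only [ex, v]
    exact sub_eq_zero.2 (onK_of_ns (ns_rep (P l j i))).2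
  | dualV l j i =>
    simp only [ex, v]
    exact sub_eq_zero.2 (hW l j i)
  | onS i =>
    simp only [ex, v]
    exact sub_eq_zero.2 (onK_of_ns (ns_rep (S i))).2
  | dualS i =>
    simp only [ex, v]
    exact sub_eq_zero.2 (hT i)
  | eqG l j e => exact hG l j e
  | det =>
    simp only [ex, v]
    exact sub_eq_zero.2 (mul_inv_cancel₀ hD)
  | step l i j c =>
    simp only [ex]
    rw [hvec]
    split_ifs with h
    · exact sub_eq_zero.2 (hU l i j h c)
    · exact sub_eq_zero.2 (hZ l i j h)
  | last l i c =>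
    simp only [ex]
    rw [hvec]
    exact sub_eq_zero.2 (hQ l i c)

theorem cfg_of_ex {O : Type} [CommRing O] (a b : O) (G : Fin q → Pol O r n)
    (d : Fin q → Fin r → ℕ) (hG : ∀ e, MHomog (G e) (d e))
    (D : MvPolynomial (ι × Fin n) O) {k : Type} [Field k] (φ : O →+* k)
    (hd : Disc (φ a) (φ b)) (τ : ι → Fin r → Fin m → Bool) (v : Vr ι r n m → k)
    (h : ∀ x, ex a b G D τ k φ v x = 0) : Cfg a b G D m φ := by
  classical
  have hVn : ∀ l j i, Projective.Nonsingular (CR (φ a) (φ b)) (fun c => v (.V l j i c)) := by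
    intro l j i
    refine ns_of_onK hd ⟨?_, ?_⟩
    · intro h0
      have h1 := h (.dualV l j i)
      simp only [ex] at h1
      have h2 : ∀ c, v (.V l j i c) = 0 := fun c => congrFun h0 c
      simp [h2] at h1
    · exact sub_eq_zero.1 (h (.onV l j i))
  have hSn : ∀ i, Projective.Nonsingular (CR (φ a) (φ b)) (fun c => v (.S i c)) := by
    intro i
    refine ns_of_onK hd ⟨?_, ?_⟩
    · intro h0
      have h1 := h (.dualS i)
      simp only [ex] at h1
      have h2 : ∀ c, v (.S i c) = 0 := fun c => congrFun h0 c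
      simp [h2] at h1
    · exact sub_eq_zero.1 (h (.onS i))
  refine ⟨fun i => pt (φ a) (φ b) (fun c => v (.S i c)), fun l t => v (.Y l t),
    fun l j i => pt (φ a) (φ b) (fun c => v (.V l j i c)), ?_, ?_, ?_⟩
  · intro l j e
    have h1 := h (.eqG l j e)
    simp only [ex] at h1
    have h2 : ∀ i, ∃ u : k, ∀ c, rep (pt (φ a) (φ b) (fun c => v (.V l j i c))) c =
        u * v (.V l j i c) := by
      intro i
      obtain ⟨u, hu⟩ := rep_pt _ (hVn l j i)
      exact ⟨u, fun c => (congrFun hu c).symm⟩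
    choose u hu using h2
    have h3 : (fun i => rep (pt (φ a) (φ b) (fun c => v (.V l j i c)))) =
        fun i c => u i * v (.V l j i c) := by
      funext i c
      exact hu i c
    rw [h3, vl_scale _ (G e) (d e) (hG e), h1, mul_zero]
  · intro l i
    have hspec := ps_spec' (a := φ a) (b := φ b) (ext τ l i) (vec v l i) m
      (fun j _ => hVn l _ i) (by
        intro j hj
        have hext : ext τ l i j = τ l i ⟨j, hj⟩ := by
          unfold ext
          rw [dif_pos hj]
        rw [hext]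
        constructor
        · intro ht
          refine ⟨v (.U l i ⟨j, hj⟩), ?_⟩
          funext c
          have h1 := h (.step l i ⟨j, hj⟩ c)
          simp only [ex] at h1
          rw [if_pos ht] at h1
          exact sub_eq_zero.1 h1
        · rintro ht ⟨u, hu⟩
          have h1 := h (.step l i ⟨j, hj⟩ 0)
          simp only [ex] at h1
          rw [if_neg ht] at h1
          have h2 : ∀ c, ps (CR (φ a) (φ b)) (ext τ l i) (vec v l i) j c =
              u * vec v l i (j + 1) c := fun c => congrFun hu c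
          simp only [h2] at h1
          rw [Finset.sum_eq_zero] at h1
          · simp at h1
          · intro c _
            refine Finset.sum_eq_zero fun c' _ => ?_
            ring) m le_rfl
    have h1 : ps (CR (φ a) (φ b)) (ext τ l i) (vec v l i) m ≈ fun c => v (.S i c) := by
      have h2 : ps (CR (φ a) (φ b)) (ext τ l i) (vec v l i) m =
          v (.Q l i) • fun c => v (.S i c) := by
        funext c
        exact sub_eq_zero.1 (h (.last l i c))
      have h3 : v (.Q l i) ≠ 0 := by
        intro h0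
        rw [h0, zero_smul] at h2
        exact ns_ne hspec.1 h2
      exact ⟨Units.mk0 _ h3, h2.symm⟩
    have h4 := pt_of_equiv (a := φ a) (b := φ b) h1
    rw [hspec.2, Finset.sum_range] at h4
    beta_reduce
    rw [← h4]
    refine Finset.sum_congr rfl fun j _ => ?_
    have h5 : Fin.ofNat (m + 1) j.1 = j := by
      ext
      simp
    unfold vec
    rw [h5]
  · intro h0
    have h1 := h .det
    simp only [ex] at h1
    rw [h0, zero_mul, zero_sub, neg_eq_zero] at h1
    exact one_ne_zero h1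

/-- **Transfer.** Configurations over fields of arbitrarily large characteristic give a
configuration over the complex numbers. -/
theorem transfer (K : Type) [Field K] [NumberField K] [Finite ι] (a b : 𝓞 K)
    (G : Fin q → Pol (𝓞 K) r n) (d : Fin q → Fin r → ℕ) (hG : ∀ e, MHomog (G e) (d e))
    (D : MvPolynomial (ι × Fin n) (𝓞 K)) (σ : K →+* ℂ) (hd : Disc (toC σ a) (toC σ b))
    (h : ∀ N : ℕ, ∃ p : ℕ, p.Prime ∧ N ≤ p ∧ ∃ (k : Type) (_ : Field k) (_ : CharP k p)
      (φ : 𝓞 K →+* k), Cfg a b G D m φ) : Cfg a b G D m (toC σ) := by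
  classical
  haveI : Fintype ι := Fintype.ofFinite ι
  let P : (ι → Fin r → Fin m → Bool) → ℕ → Prop := fun τ N => ∃ p : ℕ, p.Prime ∧ N ≤ p ∧
    ∃ (k : Type) (_ : Field k) (_ : CharP k p) (φ : 𝓞 K →+* k) (v : Vr ι r n m → k),
      ∀ x, ex a b G D τ k φ v x = 0
  have h1 : ∃ τ, ∀ N, P τ N := by
    by_contra hcon
    push Not at hcon
    choose N hN using hcon
    obtain ⟨p, hp, hNp, k, hk, hc, φ, hcfg⟩ := h (Finset.univ.sup N)
    obtain ⟨τ, v, hv⟩ := ex_of_cfg a b G D φ hcfg
    exact hN τ ⟨p, hp, (Finset.le_sup (Finset.mem_univ τ)).trans hNp, k, hk, hc, φ, v, hv⟩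
  obtain ⟨τ, hτ⟩ := h1
  obtain ⟨v, hv⟩ := Pool.Agent.W578.SA.TRK.main K (Vr ι r n m) (Ideal.span (eqP a b G D τ)) (by
    intro N
    obtain ⟨p, hp, hNp, k, hk, hc, φ, v, hv⟩ := hτ N
    exact ⟨p, hp, hNp, k, hk, hc, φ, v, (eqP_iff a b G D τ φ v).2 hv⟩) σ
  exact cfg_of_ex a b G d hG D (toC σ) hd τ v ((eqP_iff a b G D τ (toC σ) v).1 hv)

end

end Pool.Agent.Y213.BD
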