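import Pool.Agent.Y213.BD.Sum
import Pool.Agent.Y213.EC.RedT

/-! The sum of the conjugates of a point of bounded degree. -/

set_option autoImplicit false

namespace Pool.Agent.Y213.BD

open WeierstrassCurve Pool.Agent.H901R3.MS NumberField Pool.Agent.Y213.EC

/-- a Galois extension which contains all conjugates -/
theorem embeds (K : Type) [Field K] [NumberField K] (F : Type) [Field F] [Algebra K F] (m : ℕ)
    (hF : Module.finrank K F = m + 1) :
    ∃ (M : Type) (_ : Field M) (_ : NumberField M) (_ : Algebra K M) (_ : IsGalois K M),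
      Nonempty (Fin (m + 1) ≃ (F →ₐ[K] M)) := by
  haveI : FiniteDimensional K F := FiniteDimensional.of_finrank_pos (by omega)
  haveI : CharZero F := charZero_of_injective_algebraMap (algebraMap K F).injective
  let L := AlgebraicClosure K
  haveI : Normal K L := IsAlgClosure.normal K L
  haveI : FiniteDimensional K (IntermediateField.normalClosure K F L) := inferInstance
  haveI : CharZero (IntermediateField.normalClosure K F L) :=
    charZero_of_injective_algebraMap
      (algebraMap K (IntermediateField.normalClosure K F L)).injective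
  haveI : NumberField (IntermediateField.normalClosure K F L) := by
    refine { to_charZero := inferInstance, to_finiteDimensional := ?_ }
    exact FiniteDimensional.trans ℚ K (IntermediateField.normalClosure K F L)
  haveI : Normal K (IntermediateField.normalClosure K F L) := inferInstance
  haveI : Algebra.IsSeparable K (IntermediateField.normalClosure K F L) := inferInstance
  have hcard : Fintype.card (F →ₐ[K] L) = m + 1 := by
    rw [AlgHom.card K F L, hF]
  refine ⟨IntermediateField.normalClosure K F L, inferInstance, inferInstance, inferInstance,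
    { }, ⟨?_⟩⟩
  have e1 : Fin (m + 1) ≃ (F →ₐ[K] L) := (Fin.castOrderIso hcard.symm).toEquiv.trans
    (Fintype.equivFin _).symm
  exact e1.trans (normalClosure.algHomEquiv K F L).symm

/-- the points fixed by the Galois group are rational -/
theorem fixed_pt (K M : Type) [Field K] [Field M] [DecidableEq K] [DecidableEq M] [Algebra K M]
    [FiniteDimensional K M] [IsGalois K M] (a b : K) (hd : Disc a b)
    (S : Pt (algebraMap K M a) (algebraMap K M b))
    (hS : ∀ (g : M ≃ₐ[K] M) (x y : M) (h : (CV (algebraMap K M a) (algebraMap K M b)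
      ).toAffine.Nonsingular x y), S = Affine.Point.some x y h → g x = x ∧ g y = y) :
    ∃ s : Pt a b, ∀ J : Pt a b →+ Pt (algebraMap K M a) (algebraMap K M b),
      (∀ (x y : K) (h : (CV a b).toAffine.Nonsingular x y),
        ∃ g : (CV (algebraMap K M a) (algebraMap K M b)).toAffine.Nonsingular
          (algebraMap K M x) (algebraMap K M y),
        J (Affine.Point.some x y h) = Affine.Point.some _ _ g) → J s = S := by
  rcases S with _ | ⟨x, y, h⟩
  · exact ⟨0, fun J _ => map_zero J⟩
  · obtain ⟨x', hx⟩ := (IsGalois.mem_range_algebraMap_iff_fixed (F := K) x).2 fun g => (hS g x y h rfl).1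
    obtain ⟨y', hy⟩ := (IsGalois.mem_range_algebraMap_iff_fixed (F := K) y).2 fun g => (hS g x y h rfl).2
    have h' : (CV a b).toAffine.Nonsingular x' y' := by
      rw [nonsingular_iff hd]
      have h5 := eqn_of h
      unfold Eqn at h5 ⊢
      apply (algebraMap K M).injective
      rw [map_add, map_add, map_mul, map_pow, map_pow, hx, hy]
      exact h5
    refine ⟨Affine.Point.some x' y' h', fun J hJ => ?_⟩
    obtain ⟨g, hg⟩ := hJ x' y' h'
    rw [hg, Affine.Point.some.injEq]
    exact ⟨hx, hy⟩

open scoped Classical in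
/-- The sum of the conjugates of a point is rational. -/
theorem descend (K : Type) [Field K] [NumberField K] (F : Type) [Field F] [Algebra K F] (m : ℕ)
    (hF : Module.finrank K F = m + 1) (a b : K) (hd : Disc a b) (r : ℕ)
    (V : Fin r → Fin 3 → F)
    (hV : ∀ i, OnK (algebraMap K F a) (algebraMap K F b) (V i)) :
    ∃ (M : Type) (_ : Field M) (_ : NumberField M) (ι : K →+* M) (τ : Fin (m + 1) → F →+* M)
      (P : Fin (m + 1) → Fin r → Pt (ι a) (ι b)) (s : Fin r → Pt a b),
      (∀ j, (τ j).comp (algebraMap K F) = ι) ∧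
      (∀ j i, ∃ c : M, c ≠ 0 ∧ ∀ t, rep (P j i) t = c * τ j (V i t)) ∧
      ∀ J : Pt a b →+ Pt (ι a) (ι b),
        (∀ (x y : K) (h : (CV a b).toAffine.Nonsingular x y),
          ∃ g : (CV (ι a) (ι b)).toAffine.Nonsingular (ι x) (ι y),
          J (Affine.Point.some x y h) = Affine.Point.some _ _ g) → ∀ i, ∑ j, P j i = J (s i) := by
  obtain ⟨M, hM1, hM2, hM3, hM4, ⟨e⟩⟩ := embeds K F m hF
  haveI : FiniteDimensional K M := Module.Finite.of_restrictScalars_finite ℚ K M
  haveI : Fintype (F →ₐ[K] M) := Fintype.ofEquiv _ e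
  have hdM : Disc (algebraMap K M a) (algebraMap K M b) := by
    unfold Disc at hd ⊢
    have h := (map_ne_zero (algebraMap K M)).2 hd
    rw [map_mul, map_add, map_mul, map_mul, map_pow, map_pow, map_ofNat, map_ofNat,
      map_ofNat] at h
    exact h
  have hdF : Disc (algebraMap K F a) (algebraMap K F b) := by
    unfold Disc at hd ⊢
    have h := (map_ne_zero (algebraMap K F)).2 hd
    rw [map_mul, map_add, map_mul, map_mul, map_pow, map_pow, map_ofNat, map_ofNat,
      map_ofNat] at h
    exact h
  have hQ : ∀ i, ∃ (Q : Pt (algebraMap K F a) (algebraMap K F b)) (c : F), c ≠ 0 ∧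
      ∀ t, V i t = c * rep Q t := fun i => t_PTSK F _ _ (V i) hdF (hV i)
  choose Q c hc0 hc using hQ
  have hJ : ∀ τ : F →ₐ[K] M, ∃ J : Pt (algebraMap K F a) (algebraMap K F b) →+
      Pt (algebraMap K M a) (algebraMap K M b), ∀ (x y : F)
      (h : (CV (algebraMap K F a) (algebraMap K F b)).toAffine.Nonsingular x y),
      ∃ g : (CV (algebraMap K M a) (algebraMap K M b)).toAffine.Nonsingular (τ x) (τ y),
        J (Affine.Point.some x y h) = Affine.Point.some _ _ g := fun τ =>
    exists_map (τ : F →+* M) (τ.commutes a) (τ.commutes b) hdM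
  choose J hJ using hJ
  have hG : ∀ g : M ≃ₐ[K] M, ∃ J : Pt (algebraMap K M a) (algebraMap K M b) →+
      Pt (algebraMap K M a) (algebraMap K M b), ∀ (x y : M)
      (h : (CV (algebraMap K M a) (algebraMap K M b)).toAffine.Nonsingular x y),
      ∃ k : (CV (algebraMap K M a) (algebraMap K M b)).toAffine.Nonsingular (g x) (g y),
        J (Affine.Point.some x y h) = Affine.Point.some _ _ k := fun g =>
    exists_map ((g : M →ₐ[K] M) : M →+* M) (g.commutes a) (g.commutes b) hdM
  choose jg hjg using hG
  have hcomp : ∀ (g : M ≃ₐ[K] M) (τ : F →ₐ[K] M) (Q : Pt (algebraMap K F a) (algebraMap K F b)),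
      jg g (J τ Q) = J ((g : M →ₐ[K] M).comp τ) Q := by
    intro g τ Q
    rcases Q with _ | ⟨x, y, h⟩
    · have h0 : (Affine.Point.zero : Pt (algebraMap K F a) (algebraMap K F b)) = 0 := rfl
      rw [h0, map_zero, map_zero, map_zero]
    · obtain ⟨g1, h1⟩ := hJ τ x y h
      obtain ⟨g2, h2⟩ := hjg g _ _ g1
      obtain ⟨g3, h3⟩ := hJ ((g : M →ₐ[K] M).comp τ) x y h
      rw [h1, h2, h3]
      rfl
  have hinv : ∀ (g : M ≃ₐ[K] M) i, jg g (∑ j, J (e j) (Q i)) = ∑ j, J (e j) (Q i) := by
    intro g i
    rw [map_sum, Equiv.sum_comp e (fun τ => jg g (J τ (Q i))),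
      Equiv.sum_comp e (fun τ => J τ (Q i))]
    simp only [hcomp]
    let E : (F →ₐ[K] M) ≃ (F →ₐ[K] M) :=
      { toFun := fun τ => (g : M →ₐ[K] M).comp τ
        invFun := fun τ => (g.symm : M →ₐ[K] M).comp τ
        left_inv := fun τ => by
          ext x
          simp
        right_inv := fun τ => by
          ext x
          simp }
    exact Equiv.sum_comp E (fun τ => J τ (Q i))
  have hs : ∀ i, ∃ s : Pt a b, ∀ J' : Pt a b →+ Pt (algebraMap K M a) (algebraMap K M b),
      (∀ (x y : K) (h : (CV a b).toAffine.Nonsingular x y),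
        ∃ g : (CV (algebraMap K M a) (algebraMap K M b)).toAffine.Nonsingular
          (algebraMap K M x) (algebraMap K M y),
        J' (Affine.Point.some x y h) = Affine.Point.some _ _ g) →
      J' s = ∑ j, J (e j) (Q i) := by
    intro i
    refine fixed_pt K M a b hd _ ?_
    intro g x y h hS
    have h1 := hinv g i
    rw [hS] at h1
    obtain ⟨k, hk⟩ := hjg g x y h
    rw [hk, Affine.Point.some.injEq] at h1
    exact h1
  choose s hs using hs
  refine ⟨M, hM1, hM2, algebraMap K M, fun j => (e j : F →+* M), fun j i => J (e j) (Q i), s,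
    fun j => (e j).comp_algebraMap, ?_, fun J' hJ' i => (hs i J' hJ').symm⟩
  intro j i
  refine ⟨(e j (c i))⁻¹, inv_ne_zero ((map_ne_zero _).2 (hc0 i)), fun t => ?_⟩
  have h1 : rep (J (e j) (Q i)) t = e j (rep (Q i) t) := by
    rcases Q i with _ | ⟨x, y, h⟩
    · have h0 : (Affine.Point.zero : Pt (algebraMap K F a) (algebraMap K F b)) = 0 := rfl
      rw [h0, map_zero]
      fin_cases t <;> simp [rep, ← Affine.Point.zero_def]
    · obtain ⟨g1, h1⟩ := hJ (e j) x y h
      rw [h1]
      fin_cases t <;> simp [rep]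
  rw [h1, hc i t]
  have h2 : ((e j : F →+* M) (c i * rep (Q i) t)) = e j (c i) * e j (rep (Q i) t) := map_mul _ _ _
  rw [h2, ← mul_assoc, inv_mul_cancel₀ ((map_ne_zero _).2 (hc0 i)), one_mul]

end Pool.Agent.Y213.BD
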