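import Pool.Agent.Y213.BD.Desc
import Pool.Agent.Y213.T6.Sieve

/-! Extension of homomorphisms to algebraically closed fields; comparison of places. -/

set_option autoImplicit false

namespace Pool.Agent.Y213.BD

open WeierstrassCurve Pool.Agent.H901R3.MS NumberField Pool.Agent.Y213.EC

/-- homomorphisms to an algebraically closed field extend to integral extensions -/
theorem exists_ext (R S k : Type) [CommRing R] [CommRing S] [Algebra R S] [Algebra.IsIntegral R S]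
    (hinj : Function.Injective (algebraMap R S)) [Field k] [IsAlgClosed k] (f : R →+* k) :
    ∃ ψ : S →+* k, ∀ x, ψ (algebraMap R S x) = f x := by
  haveI : (RingHom.ker f).IsPrime := RingHom.ker_isPrime f
  obtain ⟨Q, -, hQ, hQP⟩ := Ideal.exists_ideal_over_prime_of_isIntegral (S := S) (RingHom.ker f) ⊥
    (by
      intro x hx
      rw [Ideal.mem_comap, Ideal.mem_bot] at hx
      have : x = 0 := hinj (by rw [hx, map_zero])
      rw [this]
      exact Ideal.zero_mem _)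
  haveI := hQ
  haveI : Q.LiesOver (RingHom.ker f) := ⟨hQP.symm⟩
  letI : Algebra (R ⧸ RingHom.ker f) k := (Ideal.Quotient.lift (RingHom.ker f) f
    (fun x hx => hx)).toAlgebra
  haveI h1 : FaithfulSMul (R ⧸ RingHom.ker f) k := by
    rw [faithfulSMul_iff_algebraMap_injective]
    exact RingHom.kerLift_injective f
  haveI h2 : FaithfulSMul (R ⧸ RingHom.ker f) (S ⧸ Q) := by
    rw [faithfulSMul_iff_algebraMap_injective]
    rw [injective_iff_map_eq_zero]
    intro x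
    obtain ⟨x, rfl⟩ := Ideal.Quotient.mk_surjective x
    intro hx
    have h3 : algebraMap (R ⧸ RingHom.ker f) (S ⧸ Q) (Ideal.Quotient.mk _ x) =
        Ideal.Quotient.mk Q (algebraMap R S x) := rfl
    rw [h3, Ideal.Quotient.eq_zero_iff_mem] at hx
    rw [Ideal.Quotient.eq_zero_iff_mem, ← hQP]
    exact hx
  haveI : IsDomain (S ⧸ Q) := inferInstance
  haveI : Algebra.IsIntegral (R ⧸ RingHom.ker f) (S ⧸ Q) := inferInstance
  haveI : Algebra.IsAlgebraic (R ⧸ RingHom.ker f) (S ⧸ Q) := inferInstance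
  let g : S ⧸ Q →ₐ[R ⧸ RingHom.ker f] k := IsAlgClosed.lift
  refine ⟨(g : S ⧸ Q →+* k).comp (Ideal.Quotient.mk Q), fun x => ?_⟩
  have h3 : Ideal.Quotient.mk Q (algebraMap R S x) =
    algebraMap (R ⧸ RingHom.ker f) (S ⧸ Q) (Ideal.Quotient.mk _ x) := rfl
  rw [RingHom.comp_apply, h3]
  have h4 := g.commutes (Ideal.Quotient.mk _ x)
  exact h4

/-- elements of a number field as quotients, locally at a prime ideal -/
theorem frac_cases (K : Type) [Field K] [NumberField K] (k : Type) [Field k] (p : ℕ) [CharP k p]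
    (hp : p ≠ 0) (φ : 𝓞 K →+* k) (x : K) : ∃ α β : 𝓞 K, φ β ≠ 0 ∧
      (x = (α : K) / (β : K) ∨ (φ α = 0 ∧ x⁻¹ = (α : K) / (β : K))) := by
  have hprime : (RingHom.ker φ).IsPrime := RingHom.ker_isPrime φ
  generalize hP : RingHom.ker φ = P at hprime
  have hPne : P ≠ ⊥ := by
    intro h0
    have h1 : ((p : ℕ) : 𝓞 K) ∈ P := by
      rw [← hP, RingHom.mem_ker, map_natCast, CharP.cast_eq_zero]
    rw [h0, Ideal.mem_bot, Nat.cast_eq_zero] at h1
    exact hp h1
  have hmem : ∀ x : 𝓞 K, x ∈ P ↔ φ x = 0 := fun x => by rw [← hP, RingHom.mem_ker]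
  haveI : IsDiscreteValuationRing (Localization.AtPrime P) :=
    IsLocalization.AtPrime.isDiscreteValuationRing_of_dedekind_domain (𝓞 K) hPne _
  have hg : ∀ y : P.primeCompl, IsUnit (algebraMap (𝓞 K) K y) := by
    intro y
    rw [isUnit_iff_ne_zero, Ne, FaithfulSMul.algebraMap_eq_zero_iff]
    intro h0
    exact y.2 (h0 ▸ P.zero_mem)
  letI : Algebra (Localization.AtPrime P) K :=
    (IsLocalization.lift (M := P.primeCompl) hg : Localization.AtPrime P →+* K).toAlgebra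
  haveI : IsScalarTower (𝓞 K) (Localization.AtPrime P) K :=
    IsScalarTower.of_algebraMap_eq fun x => (IsLocalization.lift_eq hg x).symm
  haveI : IsFractionRing (Localization.AtPrime P) K :=
    IsFractionRing.isFractionRing_of_isDomain_of_isLocalization P.primeCompl _ K
  have key : ∀ y : K, IsLocalization.IsInteger (Localization.AtPrime P) y →
      ∃ α β : 𝓞 K, φ β ≠ 0 ∧ y = (α : K) / (β : K) := by
    rintro y ⟨s, hs⟩
    obtain ⟨⟨α, β⟩, rfl⟩ := IsLocalization.mk'_surjective P.primeCompl s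
    have hβ : φ β ≠ 0 := fun h => β.2 ((hmem _).2 h)
    refine ⟨α, β, hβ, ?_⟩
    have h1 := congrArg (algebraMap (Localization.AtPrime P) K)
      (IsLocalization.mk'_spec (Localization.AtPrime P) α β)
    rw [map_mul, ← IsScalarTower.algebraMap_apply, ← IsScalarTower.algebraMap_apply, hs] at h1
    rw [eq_div_iff (hg β).ne_zero]
    exact h1
  rcases ValuationRing.isInteger_or_isInteger (Localization.AtPrime P) x with h | h
  · obtain ⟨α, β, h1, h2⟩ := key x h
    exact ⟨α, β, h1, Or.inl h2⟩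
  · obtain ⟨α, β, h1, h2⟩ := key _ h
    by_cases h3 : φ α = 0
    · exact ⟨α, β, h1, Or.inr ⟨h3, h2⟩⟩
    · refine ⟨β, α, h3, Or.inl ?_⟩
      rw [← inv_inv x, h2, inv_div]

/-- a place and its extension -/
theorem place_cmp (K : Type) [Field K] [NumberField K] (k₀ : Type) [Field k₀] (p : ℕ) [CharP k₀ p]
    (hp : p ≠ 0) (φ : 𝓞 K →+* k₀) (w : Place K k₀)
    (hw : ∀ x : 𝓞 K, (x : K) ∈ w.A ∧ w.r (x : K) = φ x) (M k : Type) [Field M] [Field k]
    (ι : K →+* M) (c : k₀ →+* k) (v : Place M k)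
    (hv : ∀ x : 𝓞 K, ι (x : K) ∈ v.A ∧ v.r (ι (x : K)) = c (φ x)) (x : K) :
    (x ∈ w.A → ι x ∈ v.A ∧ v.r (ι x) = c (w.r x)) ∧ (x ∉ w.A → ι x ∉ v.A) := by
  obtain ⟨α, β, hβ, hx⟩ := frac_cases K k₀ p hp φ x
  have hcβ : c (φ β) ≠ 0 := (map_ne_zero c).2 hβ
  have hq : ∀ y : K, y = (α : K) / (β : K) → (y ∈ w.A ∧ w.r y = φ α / φ β) ∧
      (ι y ∈ v.A ∧ v.r (ι y) = c (φ α) / c (φ β)) := by
    rintro y rfl
    refine ⟨⟨w.div_mem (hw α).1 (by rw [(hw β).2]; exact hβ), ?_⟩, ?_⟩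
    · rw [w.r_div (hw α).1 (by rw [(hw β).2]; exact hβ), (hw α).2, (hw β).2]
    · rw [map_div₀]
      refine ⟨v.div_mem (hv α).1 (by rw [(hv β).2]; exact hcβ), ?_⟩
      rw [v.r_div (hv α).1 (by rw [(hv β).2]; exact hcβ), (hv α).2, (hv β).2]
  rcases hx with h | ⟨hα, h⟩
  · obtain ⟨⟨h1, h2⟩, h3, h4⟩ := hq x h
    refine ⟨fun _ => ⟨h3, ?_⟩, fun h' => absurd h1 h'⟩
    rw [h4, h2, map_div₀]
  · obtain ⟨⟨h1, h2⟩, h3, h4⟩ := hq _ h
    rw [hα, zero_div] at h2
    rw [hα, map_zero, zero_div] at h4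
    by_cases hx0 : x = 0
    · subst hx0
      refine ⟨fun _ => ?_, fun h' => absurd w.A.zero_mem h'⟩
      rw [map_zero]
      exact ⟨v.A.zero_mem, by rw [v.r_zero, w.r_zero, map_zero]⟩
    constructor
    · intro hxw
      exfalso
      have h5 := w.r_mul hxw h1
      rw [mul_inv_cancel₀ hx0, h2, mul_zero, w.r_one] at h5
      exact one_ne_zero h5
    · intro _ hxv
      have h5 := v.r_mul hxv h3
      rw [← map_mul, mul_inv_cancel₀ hx0, h4, mul_zero, map_one, v.r_one] at h5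
      exact one_ne_zero h5

/-- the reductions of a rational point at a place and at its extension -/
theorem red_cmp (K : Type) [Field K] [NumberField K] (k₀ : Type) [Field k₀] (p : ℕ) [CharP k₀ p]
    (hp : p ≠ 0) (φ : 𝓞 K →+* k₀) (w : Place K k₀)
    (hw : ∀ x : 𝓞 K, (x : K) ∈ w.A ∧ w.r (x : K) = φ x) (M k : Type) [Field M] [Field k]
    (ι : K →+* M) (c : k₀ →+* k) (v : Place M k)
    (hv : ∀ x : 𝓞 K, ι (x : K) ∈ v.A ∧ v.r (ι (x : K)) = c (φ x))
    {a b : K} {a₀ b₀ : k₀} {a' b' : k} {redw : Pt a b → Pt a₀ b₀} (hrw : IsRd w redw)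
    {redv : Pt (ι a) (ι b) → Pt a' b'} (hrv : IsRd v redv)
    {J : Pt a b → Pt (ι a) (ι b)} (hJ0 : J Affine.Point.zero = Affine.Point.zero)
    (hJ : ∀ (x y : K) (h : (CV a b).toAffine.Nonsingular x y),
      ∃ g : (CV (ι a) (ι b)).toAffine.Nonsingular (ι x) (ι y),
        J (Affine.Point.some x y h) = Affine.Point.some _ _ g)
    {jc : Pt a₀ b₀ → Pt a' b'} (hj0 : jc Affine.Point.zero = Affine.Point.zero)
    (hj : ∀ (x y : k₀) (h : (CV a₀ b₀).toAffine.Nonsingular x y),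
      ∃ g : (CV a' b').toAffine.Nonsingular (c x) (c y),
        jc (Affine.Point.some x y h) = Affine.Point.some _ _ g) (s : Pt a b) :
    redv (J s) = jc (redw s) := by
  rcases s with _ | ⟨x, y, h⟩
  · rw [hJ0, hrv.1, hrw.1, hj0]
  · obtain ⟨g, hg⟩ := hJ x y h
    rw [hg]
    obtain ⟨h1, h2⟩ := place_cmp K k₀ p hp φ w hw M k ι c v hv x
    by_cases hx : x ∈ w.A
    · obtain ⟨hy, g1, hg1⟩ := hrw.2.2 x y h hx
      obtain ⟨h3, h4⟩ := h1 hx
      obtain ⟨_, g2, hg2⟩ := hrv.2.2 _ _ g h3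
      obtain ⟨g3, hg3⟩ := hj _ _ g1
      rw [hg1, hg2, hg3, Affine.Point.some.injEq]
      exact ⟨h4, ((place_cmp K k₀ p hp φ w hw M k ι c v hv y).1 hy).2⟩
    · rw [hrw.2.1 x y h hx, hj0, hrv.2.1 _ _ g (h2 hx)]

end Pool.Agent.Y213.BD
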