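import Pool.Agent.Y213.BD.Cfg
import Pool.Agent.W305.SA.DET

/-! Transfer of the hypotheses on the points with a given sum. -/

set_option autoImplicit false

namespace Pool.Agent.Y213.BD

open WeierstrassCurve Pool.Agent.H901R3.MS MvPolynomial NumberField Pool.Agent.Y213.EC

variable {r n m q : ℕ}

open scoped Classical in
/-- the parameters `y` of the members with `m + 1` points with the sum `S` -/
def YS {O k : Type} [CommRing O] [Field k] (a b : O) (G : Fin q → Pol O r n) (m : ℕ)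
    (φ : O →+* k) (S : Fin r → Pt (φ a) (φ b)) : Set (Fin n → k) :=
  {y | ∃ P : Fin (m + 1) → Fin r → Pt (φ a) (φ b),
    (∀ j e, vl φ (G e) (fun i => rep (P j i)) y = 0) ∧ ∀ i, ∑ j, P j i = S i}

/-- the matrix of the monomials -/
noncomputable def mm (O : Type) [CommRing O] {n : ℕ} (Λ : Finset (Fin n →₀ ℕ)) :
    Matrix {α // α ∈ Λ} {α // α ∈ Λ} (MvPolynomial ({α // α ∈ Λ} × Fin n) O) :=
  Matrix.of fun β α => ∏ i, X (β, i) ^ (α.1 i)

theorem eval_mm {O k : Type} [CommRing O] [CommRing k] (φ : O →+* k) {n : ℕ}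
    (Λ : Finset (Fin n →₀ ℕ)) [DecidableEq {α // α ∈ Λ}] (y : {α // α ∈ Λ} → Fin n → k) :
    eval₂ φ (fun lt : {α // α ∈ Λ} × Fin n => y lt.1 lt.2) (mm O Λ).det =
      (Matrix.of fun β α : {α // α ∈ Λ} => ∏ i, y β i ^ (α.1 i)).det := by
  rw [← coe_eval₂Hom, RingHom.map_det]
  congr 1
  ext β α
  simp only [mm, RingHom.mapMatrix_apply, Matrix.map_apply, Matrix.of_apply, map_prod, map_pow]
  exact Finset.prod_congr rfl fun i _ => by rw [coe_eval₂Hom, eval₂_X]

theorem trH (K : Type) [Field K] [NumberField K] (r n q m : ℕ) (a b : 𝓞 K)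
    (G : Fin q → Pol (𝓞 K) r n) (d : Fin q → Fin r → ℕ) (hG : ∀ e, MHomog (G e) (d e))
    (Λ : Finset (Fin n →₀ ℕ)) (σ : K →+* ℂ) (hd : Disc (toC σ a) (toC σ b))
    (hns : ∀ S : Fin r → Pt (toC σ a) (toC σ b), ∃ g : MvPolynomial (Fin n) ℂ, g ≠ 0 ∧
      g.support ⊆ Λ ∧ ∀ y ∈ YS a b G m (toC σ) S, eval y g = 0) :
    ∃ p₁ : ℕ, ∀ p : ℕ, p.Prime → p₁ ≤ p → ∀ (k : Type) [Field k] [CharP k p] (φ : 𝓞 K →+* k)
      (S : Fin r → Pt (φ a) (φ b)), ∃ g : MvPolynomial (Fin n) k, g ≠ 0 ∧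
      g.support ⊆ Λ ∧ ∀ y ∈ YS a b G m φ S, eval y g = 0 := by
  classical
  by_contra hcon
  push Not at hcon
  obtain ⟨S, y, P, h1, h2, h3⟩ := transfer K a b G d hG (mm (𝓞 K) Λ).det (m := m) σ hd (by
    intro N
    obtain ⟨p, hp, hNp, k, hk, hc, φ, S, hS⟩ := hcon N
    refine ⟨p, hp, hNp, k, hk, hc, φ, ?_⟩
    by_cases hspan : Submodule.span k
        ((fun x : Fin n → k => fun α : {α // α ∈ Λ} => ∏ i, x i ^ (α.1 i)) ''
          (YS a b G m φ S)) = ⊤
    · obtain ⟨x, hxY, hdet⟩ := Pool.Agent.W305.SA.DET.caseB Λ _ hspan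
      choose P hP1 hP2 using hxY
      refine ⟨S, x, P, fun l j e => hP1 l j e, fun l i => hP2 l i, ?_⟩
      rw [eval_mm]
      convert hdet
    · obtain ⟨Γ, h0, h1, h2⟩ := Pool.Agent.W305.SA.DET.caseA Λ _ hspan
      obtain ⟨y, hy, hy'⟩ := hS Γ h0 h1
      exact absurd (h2 y hy) hy')
  obtain ⟨g, hg0, hgs, hg⟩ := hns S
  apply h3
  rw [eval_mm, ← Matrix.exists_mulVec_eq_zero_iff]
  refine ⟨fun α => g.coeff α.1, ?_, ?_⟩
  · intro h0
    apply hg0
    ext t
    rw [coeff_zero]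
    by_cases ht : t ∈ Λ
    · exact congrFun h0 ⟨t, ht⟩
    · exact notMem_support_iff.mp fun h => ht (hgs h)
  · ext β
    have h4 := hg (y β) ⟨P β, fun j e => h1 β j e, fun i => h2 β i⟩
    rw [Pool.Agent.W305.SA.DET.eval_eq_sum Λ g hgs] at h4
    simp only [Matrix.mulVec, dotProduct, Pi.zero_apply]
    rw [← h4]
    refine Finset.sum_congr rfl fun α _ => ?_
    simp only [Matrix.of_apply]
    rw [mul_comm]

/-- the product of a coordinate of each point and of a minor for each pair of points -/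
noncomputable def mnr (O : Type) [CommRing O] {n D : ℕ} (t : Fin (D + 1) → Fin n)
    (s : Fin (D + 1) → Fin (D + 1) → Fin n × Fin n) : MvPolynomial (Fin (D + 1) × Fin n) O :=
  (∏ l, X (l, t l)) * ∏ l, ∏ l', if l = l' then 1 else
    X (l, (s l l').1) * X (l', (s l l').2) - X (l, (s l l').2) * X (l', (s l l').1)

theorem eval_mnr {O k : Type} [CommRing O] [CommRing k] (φ : O →+* k) {n D : ℕ}
    (t : Fin (D + 1) → Fin n) (s : Fin (D + 1) → Fin (D + 1) → Fin n × Fin n)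
    (y : Fin (D + 1) → Fin n → k) :
    eval₂ φ (fun lt : Fin (D + 1) × Fin n => y lt.1 lt.2) (mnr O t s) =
      (∏ l, y l (t l)) * ∏ l, ∏ l', if l = l' then 1 else
        y l (s l l').1 * y l' (s l l').2 - y l (s l l').2 * y l' (s l l').1 := by
  unfold mnr
  rw [← coe_eval₂Hom]
  simp only [map_mul, map_prod, apply_ite (eval₂Hom φ _), map_sub, map_one]
  simp only [coe_eval₂Hom, eval₂_X]

theorem trF (K : Type) [Field K] [NumberField K] (r n q m : ℕ) (a b : 𝓞 K)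
    (G : Fin q → Pol (𝓞 K) r n) (d : Fin q → Fin r → ℕ) (hG : ∀ e, MHomog (G e) (d e))
    (D : ℕ) (σ : K →+* ℂ) (hd : Disc (toC σ a) (toC σ b))
    (hns : ∀ (S : Fin r → Pt (toC σ a) (toC σ b)) (x : Fin (D + 1) → Fin n → ℂ), (∀ l, x l ≠ 0) →
      (∀ l, x l ∈ YS a b G m (toC σ) S) → ∃ l l', l ≠ l' ∧ ∃ c : ℂ, x l = c • x l') :
    ∃ p₁ : ℕ, ∀ p : ℕ, p.Prime → p₁ ≤ p → ∀ (k : Type) [Field k] [CharP k p] (φ : 𝓞 K →+* k)
      (S : Fin r → Pt (φ a) (φ b)) (x : Fin (D + 1) → Fin n → k), (∀ l, x l ≠ 0) →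
      (∀ l, x l ∈ YS a b G m φ S) → ∃ l l', l ≠ l' ∧ ∃ c : k, x l = c • x l' := by
  classical
  by_contra hcon
  push Not at hcon
  have key : ∃ (t : Fin (D + 1) → Fin n) (s : Fin (D + 1) → Fin (D + 1) → Fin n × Fin n),
      ∀ N : ℕ, ∃ p : ℕ, p.Prime ∧ N ≤ p ∧ ∃ (k : Type) (_ : Field k) (_ : CharP k p)
      (φ : 𝓞 K →+* k), Cfg a b G (mnr (𝓞 K) t s) m φ := by
    by_contra hno
    push Not at hno
    choose N hN using hno
    obtain ⟨p, hp, hNp, k, hk, hc, φ, S, x, hx0, hxY, hxp⟩ := hcon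
      (Finset.univ.sup fun ts : (Fin (D + 1) → Fin n) ×
        (Fin (D + 1) → Fin (D + 1) → Fin n × Fin n) => N ts.1 ts.2)
    have ht : ∀ l, ∃ i, x l i ≠ 0 := fun l => Function.ne_iff.1 (hx0 l)
    choose t ht using ht
    have hs : ∀ l l', ∃ ij : Fin n × Fin n, l ≠ l' →
        x l ij.1 * x l' ij.2 - x l ij.2 * x l' ij.1 ≠ 0 := by
      intro l l'
      by_cases hll : l = l'
      · exact ⟨(t l, t l), fun h => absurd hll h⟩
      · by_contra hno
        push Not at hno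
        refine hxp l l' hll (x l (t l') / x l' (t l')) ?_
        funext i
        have h1 := (hno (i, t l')).2
        simp only at h1
        have hj' := ht l'
        rw [Pi.smul_apply, smul_eq_mul]
        field_simp
        linear_combination h1
    choose s hs using hs
    choose P hP1 hP2 using hxY
    refine hN t s p hp ((Finset.le_sup (f := fun ts : (Fin (D + 1) → Fin n) ×
        (Fin (D + 1) → Fin (D + 1) → Fin n × Fin n) => N ts.1 ts.2)
        (Finset.mem_univ (t, s))).trans hNp) k hk hc φ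
      ⟨S, x, P, fun l j e => hP1 l j e, fun l i => hP2 l i, ?_⟩
    rw [eval_mnr]
    refine mul_ne_zero (Finset.prod_ne_zero_iff.2 fun l _ => ht l)
      (Finset.prod_ne_zero_iff.2 fun l _ => Finset.prod_ne_zero_iff.2 fun l' _ => ?_)
    split_ifs with hll
    · exact one_ne_zero
    · exact hs l l' hll
  obtain ⟨t, s, hts⟩ := key
  obtain ⟨S, y, P, h1, h2, h3⟩ := transfer K a b G d hG (mnr (𝓞 K) t s) (m := m) σ hd hts
  rw [eval_mnr] at h3
  have h4 := left_ne_zero_of_mul h3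
  have h5 := right_ne_zero_of_mul h3
  rw [Finset.prod_ne_zero_iff] at h4 h5
  obtain ⟨l, l', hll, c, hc⟩ := hns S y (fun l h0 => h4 l (Finset.mem_univ _) (by
    rw [h0]
    rfl)) (fun l => ⟨P l, fun j e => h1 l j e, fun i => h2 l i⟩)
  have h6 := Finset.prod_ne_zero_iff.1 (h5 l (Finset.mem_univ _)) l' (Finset.mem_univ _)
  rw [if_neg hll] at h6
  apply h6
  have h7 : ∀ i, y l i = c * y l' i := fun i => congrFun hc i
  rw [h7, h7]
  ring

end Pool.Agent.Y213.BD
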