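import Pool.Agent.Y213.BD.Ext
import Pool.Agent.Y213.BD.TrH

/-! The reduction of the members with a point of bounded degree. -/

set_option autoImplicit false

namespace Pool.Agent.Y213.BD

open WeierstrassCurve Pool.Agent.H901R3.MS MvPolynomial NumberField Pool.Agent.Y213.EC

variable {r n m q : ℕ}

/-- the member with the parameters `y` has a point over an extension of degree `m + 1` -/
def DegPt {K : Type} [Field K] (a b : 𝓞 K) (G : Fin q → Pol (𝓞 K) r n) (m : ℕ)
    (y : Fin n → K) : Prop :=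
  ∃ (F : Type) (_ : Field F) (_ : Algebra K F), Module.finrank K F = m + 1 ∧
    ∃ V : Fin r → Fin 3 → F, (∀ i, OnK (algebraMap K F a) (algebraMap K F b) (V i)) ∧
      ∀ e, vl ((algebraMap K F).comp (algebraMap (𝓞 K) K)) (G e) V
        (fun i => algebraMap K F (y i)) = 0

open scoped Classical in
theorem member (K : Type) [Field K] [NumberField K] (a b : 𝓞 K) (hd : Disc (a : K) (b : K))
    (G : Fin q → Pol (𝓞 K) r n) (d : Fin q → Fin r → ℕ) (hG : ∀ e, MHomog (G e) (d e))
    (y : Fin n → 𝓞 K) (hy : DegPt a b G m (fun i => (y i : K))) :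
    ∃ s : Fin r → Pt (a : K) (b : K), ∀ (p : ℕ) [Fact p.Prime] (φ : 𝓞 K →+* ZMod p)
      (w : Place K (ZMod p)), (∀ x : 𝓞 K, (x : K) ∈ w.A ∧ w.r (x : K) = φ x) →
      ∀ redK : Pt (a : K) (b : K) →+ Pt (φ a) (φ b), IsRd w redK →
      ∀ (k : Type) [Field k] [IsAlgClosed k] (c : ZMod p →+* k),
      Disc (c.comp φ a) (c.comp φ b) →
      ∀ jc : Pt (φ a) (φ b) →+ Pt (c.comp φ a) (c.comp φ b),
      (∀ (x y : ZMod p) (h : (CV (φ a) (φ b)).toAffine.Nonsingular x y),
        ∃ g : (CV (c.comp φ a) (c.comp φ b)).toAffine.Nonsingular (c x) (c y),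
          jc (Affine.Point.some x y h) = Affine.Point.some _ _ g) →
      (fun i => c (φ (y i))) ∈ YS a b G m (c.comp φ) (fun i => jc (redK (s i))) := by
  obtain ⟨F, hF1, hF2, hdeg, V, hV, hz⟩ := hy
  obtain ⟨M, hM1, hM2, ι, τ, P, s, hτ, hP, hsum⟩ := descend K F m hdeg (a : K) (b : K) hd r V hV
  refine ⟨s, ?_⟩
  intro p _ φ w hw redK hred k _ _ c hdc jc hjc
  have hp : p ≠ 0 := (Fact.out : p.Prime).ne_zero
  haveI : CharP k p := charP_of_injective_ringHom c.injective p
  letI : Algebra K M := ι.toAlgebra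
  have hinj : Function.Injective (algebraMap (𝓞 K) (𝓞 M)) :=
    FaithfulSMul.algebraMap_injective (𝓞 K) (𝓞 M)
  obtain ⟨ψ, hψ⟩ := exists_ext (𝓞 K) (𝓞 M) k hinj (c.comp φ)
  obtain ⟨v, hv⟩ := exists_place M k p hp ψ
  have hvK : ∀ x : 𝓞 K, ι (x : K) ∈ v.A ∧ v.r (ι (x : K)) = c (φ x) := by
    intro x
    have h1 := hv (algebraMap (𝓞 K) (𝓞 M) x)
    rw [hψ x] at h1
    exact h1
  obtain ⟨redv, hredv⟩ := exists_red v (a := ι (a : K)) (b := ι (b : K)) (a' := c.comp φ a)
    (b' := c.comp φ b) (hvK a).1 (hvK b).1 (hvK a).2 (hvK b).2 hdc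
  have hdM : Disc (ι (a : K)) (ι (b : K)) := by
    unfold Disc at hd ⊢
    have h := (map_ne_zero ι).2 hd
    rw [map_mul, map_add, map_mul, map_mul, map_pow, map_pow, map_ofNat, map_ofNat,
      map_ofNat] at h
    exact h
  obtain ⟨J, hJ⟩ := exists_map ι (a := (a : K)) (b := (b : K)) rfl rfl hdM
  refine ⟨fun j i => redv (P j i), ?_, ?_⟩
  · intro j e
    have h1 : ∀ i, ∃ u : M, ∀ t, u * τ j (V i t) ∈ v.A ∧
        v.r (u * τ j (V i t)) = rep (redv (P j i)) t := by
      intro i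
      obtain ⟨u, hu, hu'⟩ := rep_red v (hvK a).1 (hvK b).1 (hvK a).2 (hvK b).2 hredv (P j i)
      obtain ⟨c', hc', hc⟩ := hP j i
      refine ⟨u * c', fun t => ?_⟩
      have h2 := hu' t
      rw [hc t, ← mul_assoc] at h2
      exact h2
    choose u hu using h1
    have h2 := (T6.loc_valG v (ι.comp (algebraMap (𝓞 K) K)) (c.comp φ) (fun x => hvK x)
      (ι.comp (algebraMap (𝓞 K) K)) (c.comp φ) (fun x => hvK x) (fun i t => τ j (V i t))
      (fun i => rep (redv (P j i))) u hu (G e) (d e) (hG e) y).2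
    have h3 : vl (ι.comp (algebraMap (𝓞 K) K)) (G e) (fun i t => τ j (V i t))
        (fun i => (ι.comp (algebraMap (𝓞 K) K)) (y i)) = 0 := by
      have h4 := congrArg (τ j) (hz e)
      rw [vl_map, map_zero, ← RingHom.comp_assoc, hτ j] at h4
      rw [← h4]
      congr 1
      funext i
      have h5 := congrArg (fun f : K →+* M => f (y i : K)) (hτ j)
      exact h5.symm
    rw [h3, mul_zero, Place.r_zero] at h2
    exact h2.symm
  · intro i
    have h1 : ∑ j, redv (P j i) = redv (∑ j, P j i) := (map_sum redv _ _).symm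
    beta_reduce
    rw [h1, hsum J hJ i]
    exact red_cmp K (ZMod p) p hp φ w hw M k ι c v hvK hred hredv (map_zero J) hJ
      (map_zero jc) hjc (s i)

end Pool.Agent.Y213.BD
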