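import Pool.Agent.Y213.EC.Trans

/-! Sums of points of an elliptic curve in homogeneous coordinates, by polynomial formulas. -/

set_option autoImplicit false

namespace Pool.Agent.Y213.BD

open WeierstrassCurve Pool.Agent.H901R3.MS

open scoped WeierstrassCurve.Projective

/-- the curve `y² = x³ + a x + b` over a ring -/
def CR {R : Type} [CommRing R] (a b : R) : Projective R := ⟨0, 0, 0, a, b⟩

theorem CR_map {R S : Type} [CommRing R] [CommRing S] (f : R →+* S) (a b : R) :
    WeierstrassCurve.map (CR a b) f = CR (f a) (f b) := by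
  ext <;> simp [CR, WeierstrassCurve.map]

theorem CR_eq {F : Type} [Field F] (a b : F) : CR a b = CV a b := rfl

/-- the partial sums; `τ j` says that the two points added in the step `j` are equal -/
noncomputable def ps {R : Type} [CommRing R] (W : Projective R) (τ : ℕ → Bool)
    (V : ℕ → Fin 3 → R) : ℕ → Fin 3 → R
  | 0 => V 0
  | j + 1 => if τ j = true then W.dblXYZ (ps W τ V j) else W.addXYZ (ps W τ V j) (V (j + 1))

theorem map_ps {R S : Type} [CommRing R] [CommRing S] (f : R →+* S) (a b : R) (τ : ℕ → Bool)
    (V : ℕ → Fin 3 → R) (j : ℕ) :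
    ps (CR (f a) (f b)) τ (fun i => f ∘ V i) j = f ∘ ps (CR a b) τ V j := by
  induction j with
  | zero => rfl
  | succ j ih =>
    simp only [ps]
    split_ifs with h
    · rw [ih, ← CR_map f a b]
      exact Projective.map_dblXYZ (W' := CR a b) f _
    · rw [ih, ← CR_map f a b]
      exact Projective.map_addXYZ (W' := CR a b) f _ _

section field

variable {F : Type} [Field F] {a b : F}

theorem ns_rep (P : Pt a b) : Projective.Nonsingular (CR a b) (rep P) := by
  rcases P with _ | ⟨x, y, h⟩
  · exact Projective.nonsingular_zero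
  · exact (Projective.nonsingular_some x y).2 h

/-- the point with given homogeneous coordinates -/
noncomputable def pt (a b : F) (P : Fin 3 → F) : Pt a b := Projective.Point.toAffine (CR a b) P

theorem pt_rep (P : Pt a b) : pt a b (rep P) = P := by
  rcases P with _ | ⟨x, y, h⟩
  · exact Projective.Point.toAffine_zero
  · exact Projective.Point.toAffine_some ((Projective.nonsingular_some x y).2 h)

theorem rep_pt (P : Fin 3 → F) (hP : Projective.Nonsingular (CR a b) P) :
    rep (pt a b P) ≈ P := by
  unfold pt
  by_cases hz : P 2 = 0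
  · rw [Projective.Point.toAffine_of_Z_eq_zero hz]
    exact Setoid.symm (Projective.equiv_zero_of_Z_eq_zero hP hz)
  · rw [Projective.Point.toAffine_of_Z_ne_zero hP hz]
    exact Setoid.symm (Projective.equiv_some_of_Z_ne_zero hz)

theorem pt_of_equiv {P Q : Fin 3 → F} (h : P ≈ Q) : pt a b P = pt a b Q :=
  Projective.Point.toAffine_of_equiv h

theorem pt_add [DecidableEq F] {P Q : Fin 3 → F} (hP : Projective.Nonsingular (CR a b) P)
    (hQ : Projective.Nonsingular (CR a b) Q) :
    pt a b (Projective.add (CR a b) P Q) = pt a b P + pt a b Q :=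
  Projective.Point.toAffine_add hP hQ

theorem ns_ne {P : Fin 3 → F} (hP : Projective.Nonsingular (CR a b) P) : P ≠ 0 := by
  intro h
  rw [Projective.nonsingular_iff] at hP
  subst h
  simp at hP

theorem onK_of_ns {P : Fin 3 → F} (hP : Projective.Nonsingular (CR a b) P) : OnK a b P := by
  refine ⟨ns_ne hP, ?_⟩
  have h := (Projective.equation_iff P).1 hP.1
  simp only [CR] at h
  linear_combination h

theorem ns_of_onK (hd : Disc a b) {P : Fin 3 → F} (hP : OnK a b P) :
    Projective.Nonsingular (CR a b) P := by
  obtain ⟨Q, u, hu, h⟩ := t_PTSK F a b P hd hP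
  have h1 : P = u • rep Q := funext h
  rw [h1, Projective.nonsingular_smul _ (Ne.isUnit hu)]
  exact ns_rep Q

/-- The partial sums are the sums of the points if the types are right. -/
theorem ps_spec [DecidableEq F] (τ : ℕ → Bool) (V : ℕ → Fin 3 → F) (m : ℕ)
    (hV : ∀ j ≤ m, Projective.Nonsingular (CR a b) (V j))
    (hτ : ∀ j < m, (τ j = true ↔ ps (CR a b) τ V j ≈ V (j + 1))) :
    ∀ j ≤ m, Projective.Nonsingular (CR a b) (ps (CR a b) τ V j) ∧
      pt a b (ps (CR a b) τ V j) = ∑ i ∈ Finset.range (j + 1), pt a b (V i) := by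
  intro j hj
  induction j with
  | zero =>
    refine ⟨hV 0 hj, ?_⟩
    rw [Finset.sum_range_one]
    rfl
  | succ j ih =>
    obtain ⟨h1, h2⟩ := ih (by omega)
    have h3 := hV (j + 1) hj
    have h4 : ps (CR a b) τ V (j + 1) = Projective.add (CR a b) (ps (CR a b) τ V j) (V (j + 1)) := by
      simp only [ps]
      by_cases h : τ j = true
      · rw [if_pos h, Projective.add_of_equiv ((hτ j (by omega)).1 h)]
      · rw [if_neg h, Projective.add_of_not_equiv (fun h' => h ((hτ j (by omega)).2 h'))]
    rw [h4]
    refine ⟨Projective.nonsingular_add h1 h3, ?_⟩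
    rw [pt_add h1 h3, h2, Finset.sum_range_succ _ (j + 1)]

/-- the partial sums by the addition of Mathlib -/
noncomputable def psA (a b : F) (V : ℕ → Fin 3 → F) : ℕ → Fin 3 → F
  | 0 => V 0
  | j + 1 => Projective.add (CR a b) (psA a b V j) (V (j + 1))

/-- The types exist. -/
theorem exists_types (V : ℕ → Fin 3 → F) :
    ∃ τ : ℕ → Bool, ∀ j, (τ j = true ↔ ps (CR a b) τ V j ≈ V (j + 1)) := by
  classical
  have hex : ∀ j, ∃ t : Bool, (t = true ↔ psA a b V j ≈ V (j + 1)) := by
    intro j
    by_cases h : psA a b V j ≈ V (j + 1)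
    · exact ⟨true, by simp [h]⟩
    · exact ⟨false, by simp [h]⟩
  choose τ hτ using hex
  have key : ∀ j, ps (CR a b) τ V j = psA a b V j := by
    intro j
    induction j with
    | zero => rfl
    | succ j ih =>
      have h1 : psA a b V (j + 1) = Projective.add (CR a b) (psA a b V j) (V (j + 1)) := rfl
      simp only [ps]
      rw [ih, h1]
      by_cases h : psA a b V j ≈ V (j + 1)
      · rw [if_pos ((hτ j).2 h), Projective.add_of_equiv h]
      · rw [if_neg (fun h' => h ((hτ j).1 h')), Projective.add_of_not_equiv h]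
  refine ⟨τ, fun j => ?_⟩
  rw [key, hτ]

end field

end Pool.Agent.Y213.BD
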