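import Pool.Agent.Y213.BD.Sum

/-! Transfer of configurations of points of an elliptic curve with given sums from fields of large
positive characteristic to the field of complex numbers. -/

set_option autoImplicit false

namespace Pool.Agent.Y213.BD

open WeierstrassCurve Pool.Agent.H901R3.MS MvPolynomial NumberField Pool.Agent.Y213.EC

open Pool.Agent.W659.SA (toC)

open scoped WeierstrassCurve.Projective

/-- the variables -/
inductive Vr (ι : Type) (r n m : ℕ) : Type
  | V (l : ι) (j : Fin (m + 1)) (i : Fin r) (c : Fin 3)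
  | W (l : ι) (j : Fin (m + 1)) (i : Fin r) (c : Fin 3)
  | S (i : Fin r) (c : Fin 3)
  | T (i : Fin r) (c : Fin 3)
  | Y (l : ι) (t : Fin n)
  | D
  | U (l : ι) (i : Fin r) (j : Fin m)
  | Z (l : ι) (i : Fin r) (j : Fin m) (c c' : Fin 3)
  | Q (l : ι) (i : Fin r)

/-- the variables as a sum of products -/
def vrEquiv (ι : Type) (r n m : ℕ) : Vr ι r n m ≃
    ((ι × Fin (m + 1) × Fin r × Fin 3) ⊕ (ι × Fin (m + 1) × Fin r × Fin 3)) ⊕
    ((Fin r × Fin 3) ⊕ (Fin r × Fin 3)) ⊕ ((ι × Fin n) ⊕ Unit) ⊕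
    (ι × Fin r × Fin m) ⊕ (ι × Fin r × Fin m × Fin 3 × Fin 3) ⊕ (ι × Fin r) where
  toFun
    | .V l j i c => .inl (.inl (l, j, i, c))
    | .W l j i c => .inl (.inr (l, j, i, c))
    | .S i c => .inr (.inl (.inl (i, c)))
    | .T i c => .inr (.inl (.inr (i, c)))
    | .Y l t => .inr (.inr (.inl (.inl (l, t))))
    | .D => .inr (.inr (.inl (.inr ())))
    | .U l i j => .inr (.inr (.inr (.inl (l, i, j))))
    | .Z l i j c c' => .inr (.inr (.inr (.inr (.inl (l, i, j, c, c')))))
    | .Q l i => .inr (.inr (.inr (.inr (.inr (l, i)))))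
  invFun
    | .inl (.inl (l, j, i, c)) => .V l j i c
    | .inl (.inr (l, j, i, c)) => .W l j i c
    | .inr (.inl (.inl (i, c))) => .S i c
    | .inr (.inl (.inr (i, c))) => .T i c
    | .inr (.inr (.inl (.inl (l, t)))) => .Y l t
    | .inr (.inr (.inl (.inr ()))) => .D
    | .inr (.inr (.inr (.inl (l, i, j)))) => .U l i j
    | .inr (.inr (.inr (.inr (.inl (l, i, j, c, c'))))) => .Z l i j c c'
    | .inr (.inr (.inr (.inr (.inr (l, i))))) => .Q l i
  left_inv := by
    intro x
    cases x <;> rfl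
  right_inv := by
    intro x
    rcases x with (⟨_, _, _, _⟩ | ⟨_, _, _, _⟩) | (⟨_, _⟩ | ⟨_, _⟩) | (⟨_, _⟩ | ⟨⟩) | ⟨_, _, _⟩ |
      ⟨_, _, _, _, _⟩ | ⟨_, _⟩ <;> rfl

instance (ι : Type) [Finite ι] (r n m : ℕ) : Finite (Vr ι r n m) :=
  Finite.of_equiv _ (vrEquiv ι r n m).symm

section

variable {ι : Type} {r n m q : ℕ}

/-- the vectors which are added -/
def vec {R : Type} (v : Vr ι r n m → R) (l : ι) (i : Fin r) : ℕ → Fin 3 → R :=
  fun j c => v (.V l (Fin.ofNat (m + 1) j) i c)

/-- the types as a sequence -/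
def ext (τ : ι → Fin r → Fin m → Bool) (l : ι) (i : Fin r) : ℕ → Bool :=
  fun j => if h : j < m then τ l i ⟨j, h⟩ else false

/-- the indices of the equations -/
inductive Ix (ι : Type) (r m q : ℕ) : Type
  | onV (l : ι) (j : Fin (m + 1)) (i : Fin r)
  | dualV (l : ι) (j : Fin (m + 1)) (i : Fin r)
  | onS (i : Fin r)
  | dualS (i : Fin r)
  | eqG (l : ι) (j : Fin (m + 1)) (e : Fin q)
  | det
  | step (l : ι) (i : Fin r) (j : Fin m) (c : Fin 3)
  | last (l : ι) (i : Fin r) (c : Fin 3)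

/-- the left hand sides of the equations -/
noncomputable def ex {O : Type} [CommRing O] (a b : O) (G : Fin q → Pol O r n)
    (D : MvPolynomial (ι × Fin n) O) (τ : ι → Fin r → Fin m → Bool) (R : Type) [CommRing R]
    (φ : O →+* R) (v : Vr ι r n m → R) : Ix ι r m q → R
  | .onV l j i => v (.V l j i 1) ^ 2 * v (.V l j i 2) - (v (.V l j i 0) ^ 3 +
      φ a * v (.V l j i 0) * v (.V l j i 2) ^ 2 + φ b * v (.V l j i 2) ^ 3)
  | .dualV l j i => (∑ c : Fin 3, v (.V l j i c) * v (.W l j i c)) - 1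
  | .onS i => v (.S i 1) ^ 2 * v (.S i 2) - (v (.S i 0) ^ 3 +
      φ a * v (.S i 0) * v (.S i 2) ^ 2 + φ b * v (.S i 2) ^ 3)
  | .dualS i => (∑ c : Fin 3, v (.S i c) * v (.T i c)) - 1
  | .eqG l j e => vl φ (G e) (fun i c => v (.V l j i c)) (fun t => v (.Y l t))
  | .det => eval₂ φ (fun lt => v (.Y lt.1 lt.2)) D * v .D - 1
  | .step l i j c => if τ l i j = true then
      ps (CR (φ a) (φ b)) (ext τ l i) (vec v l i) j c - v (.U l i j) * vec v l i (j + 1) c
    else (∑ c : Fin 3, ∑ c' : Fin 3, v (.Z l i j c c') *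
      (ps (CR (φ a) (φ b)) (ext τ l i) (vec v l i) j c * vec v l i (j + 1) c' -
        ps (CR (φ a) (φ b)) (ext τ l i) (vec v l i) j c' * vec v l i (j + 1) c)) - 1
  | .last l i c => ps (CR (φ a) (φ b)) (ext τ l i) (vec v l i) m c - v (.Q l i) * v (.S i c)

theorem ps_nat {O : Type} [CommRing O] (a b : O) (τ : ℕ → Bool)
    {R R' : Type} [CommRing R] [CommRing R'] (φ : O →+* R) (f : R →+* R')
    (v : Vr ι r n m → R) (l : ι) (i : Fin r) (j : ℕ) (c : Fin 3) :
    f (ps (CR (φ a) (φ b)) τ (vec v l i) j c) =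
      ps (CR ((f.comp φ) a) ((f.comp φ) b)) τ (vec (fun x => f (v x)) l i) j c := by
  have h := map_ps f (φ a) (φ b) τ (vec v l i) j
  have h1 : (fun k => f ∘ vec v l i k) = vec (fun x => f (v x)) l i := rfl
  rw [h1] at h
  exact (congrFun h c).symm

theorem ex_nat {O : Type} [CommRing O] (a b : O) (G : Fin q → Pol O r n)
    (D : MvPolynomial (ι × Fin n) O) (τ : ι → Fin r → Fin m → Bool) {R R' : Type} [CommRing R]
    [CommRing R'] (φ : O →+* R) (f : R →+* R') (v : Vr ι r n m → R) (x : Ix ι r m q) :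
    f (ex a b G D τ R φ v x) = ex a b G D τ R' (f.comp φ) (fun y => f (v y)) x := by
  cases x with
  | onV l j i => simp only [ex, map_sub, map_mul, map_pow, map_add, RingHom.comp_apply]
  | dualV l j i => simp only [ex, map_sub, map_mul, map_sum, map_one]
  | onS i => simp only [ex, map_sub, map_mul, map_pow, map_add, RingHom.comp_apply]
  | dualS i => simp only [ex, map_sub, map_mul, map_sum, map_one]
  | eqG l j e =>
    simp only [ex]
    exact vl_map φ f (G e) _ _
  | det => simp only [ex, map_sub, map_mul, map_one, hom_eval₂, Function.comp_def]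
  | step l i j c =>
    simp only [ex]
    split_ifs with h
    · rw [map_sub, map_mul, ps_nat]
      rfl
    · simp only [map_sub, map_mul, map_sum, map_one, ps_nat]
      rfl
  | last l i c =>
    simp only [ex]
    rw [map_sub, map_mul, ps_nat]

/-- the equations as polynomials -/
noncomputable def eqP {O : Type} [CommRing O] (a b : O) (G : Fin q → Pol O r n)
    (D : MvPolynomial (ι × Fin n) O) (τ : ι → Fin r → Fin m → Bool) :
    Set (MvPolynomial (Vr ι r n m) O) :=
  Set.range fun x : Ix ι r m q => ex a b G D τ (MvPolynomial (Vr ι r n m) O) C X x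

theorem eqP_iff {O : Type} [CommRing O] (a b : O) (G : Fin q → Pol O r n)
    (D : MvPolynomial (ι × Fin n) O) (τ : ι → Fin r → Fin m → Bool) {R : Type} [CommRing R]
    (φ : O →+* R) (v : Vr ι r n m → R) :
    (∀ f ∈ Ideal.span (eqP a b G D τ), eval₂ φ v f = 0) ↔ ∀ x, ex a b G D τ R φ v x = 0 := by
  have key : ∀ x, eval₂Hom φ v (ex a b G D τ (MvPolynomial (Vr ι r n m) O) C X x) =
      ex a b G D τ R φ v x := by
    intro x
    rw [ex_nat]
    congr 1
    · ext y
      simp
    · funext y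
      simp
  constructor
  · intro h x
    rw [← key x]
    exact h _ (Ideal.subset_span ⟨x, rfl⟩)
  · intro h f hf
    have h2 : Ideal.span (eqP a b G D τ) ≤ RingHom.ker (eval₂Hom φ v) := by
      rw [Ideal.span_le]
      rintro _ ⟨x, rfl⟩
      change eval₂Hom φ v _ = 0
      rw [key, h x]
    exact h2 hf

end

end Pool.Agent.Y213.BD
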